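import Pool.Agent.MP_42ca66_lc.BoxX
import Pool.Agent.MP_42ca66_lc.Gauss
import Pool.Agent.MP_42ca66_lc.Asym

/-!
The steepest-edge path is not dominated by the shadow under smoothing.
-/

namespace Pool.Agent.Results.MP_42ca66_lc.SteepestEdgeBeatsShadow

open Pool.Agent.MP42 MeasureTheory Set
open scoped ENNReal NNReal

/-- For every constant `α` and every polynomial `x₀(m, n, 1/σ)` there are `m`, `n`, `σ`, a matrix
`Abar` and vector `cbar` of joint Frobenius norm at most `1`, a vector `z` and a number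
`x > x₀(m, n, 1/σ)` such that the probability that the steepest-edge path has more than `x` steps
(and `Q` is bounded) exceeds `α` times the probability that the shadow has more than `x`
vertices. -/
theorem result (α : ℝ) (x₀ : MvPolynomial (Fin 3) ℝ) :
    ∃ (m n : ℕ) (σ : ℝ≥0) (Abar : Fin m → Fin n → ℝ) (cbar z : Fin n → ℝ) (x : ℕ),
      0 < σ ∧ σ ≤ 1 ∧ ∑ i, ∑ j, Abar i j ^ 2 + ∑ j, cbar j ^ 2 ≤ 1 ∧
      MvPolynomial.eval ![(m : ℝ), (n : ℝ), 1 / (σ : ℝ)] x₀ < x ∧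
      ENNReal.ofReal α * law Abar cbar σ {ω | (x : ℕ∞) < shadowSize ω.1 z ω.2} <
        law Abar cbar σ
          {ω | (x : ℕ∞) < pathLen ω.1 ω.2 z ∧ Bornology.IsBounded (poly ω.1)} := by
  obtain ⟨p, hp, hx, hbig⟩ := exists_dim α x₀
  have hp' : (8:ℝ) ≤ p := by exact_mod_cast hp
  let e : Row p ≃ Fin (p + p + 3) :=
    (Equiv.sumCongr finSumFinEquiv (Equiv.refl (Fin 3))).trans finSumFinEquiv
  let σ : ℝ≥0 := 1 / ((p : ℝ≥0) + 1) ^ 12
  have hσr : (σ : ℝ) = 1 / ((p:ℝ) + 1) ^ 12 := by simp [σ]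
  have hσ0 : 0 < σ := by positivity
  have hσ1 : σ ≤ 1 := by
    rw [← NNReal.coe_le_coe, hσr, NNReal.coe_one, div_le_one (by positivity)]
    exact one_le_pow₀ (by linarith)
  have hτ0 : 0 ≤ tau p := by
    have := (Hb_big hp).1
    unfold tau; positivity
  have hr0 : 0 ≤ rr p := by unfold rr; positivity
  have hτσ : tau p ≤ σ := by
    rw [hσr]
    refine (one_div_le_one_div_of_le (by positivity) ?_)
    have hH1 := (Hb_big hp).1
    have hH : ((p:ℝ) + 1) ≤ Hb p := by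
      have h4 : ((p:ℝ) + 1) ≤ (512 * p) ^ 2 := by nlinarith
      refine h4.trans ?_
      exact pow_le_pow_right₀ (by linarith) (by omega)
    calc ((p:ℝ) + 1) ^ 12 ≤ Hb p ^ 12 := pow_le_pow_left₀ (by linarith) hH _
      _ ≤ Hb p ^ 20 := pow_le_pow_right₀ hH1 (by norm_num)
      _ = 1 * 1 * Hb p ^ 20 := by ring
      _ ≤ 2 ^ 20 * ((p:ℝ) + 1) ^ 5 * Hb p ^ 20 := by
          apply mul_le_mul_of_nonneg_right _ (by positivity)
          exact mul_le_mul (by norm_num) (one_le_pow₀ (by linarith)) (by norm_num) (by norm_num)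
  refine ⟨p + p + 3, p + 1, σ, fun i j => MP42.Abar p (e.symm i) j, MP42.cbar p, zz p,
    2 ^ p - 1, hσ0, hσ1, ?_, ?_, ?_⟩
  · rw [Equiv.sum_comp e.symm (fun i => ∑ j, MP42.Abar p i j ^ 2)]
    exact frob hp
  · rw [hσr, one_div_one_div]
    exact hx
  · set A0 : Fin (p + p + 3) → Fin (p + 1) → ℝ := fun i j => MP42.Abar p (e.symm i) j with hA0
    have hbox : ∀ (t : ℝ) (ω : (Fin (p + p + 3) → Fin (p + 1) → ℝ) × (Fin (p + 1) → ℝ)),
        ω ∈ boxSet A0 (MP42.cbar p) t →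
        (∀ i j, |(fun i => ω.1 (e i)) i j - MP42.Abar p i j| ≤ t) ∧
          ∀ j, |ω.2 j - MP42.cbar p j| ≤ t := by
      intro t ω hω
      refine ⟨fun i j => ?_, hω.2⟩
      have := hω.1 (e i) j
      simpa [hA0] using this
    have hlow : law A0 (MP42.cbar p) σ (boxSet A0 (MP42.cbar p) (tau p)) ≤
        law A0 (MP42.cbar p) σ {ω | ((2 ^ p - 1 : ℕ) : ℕ∞) < pathLen ω.1 ω.2 (zz p) ∧
          Bornology.IsBounded (poly ω.1)} := by
      apply measure_mono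
      intro ω hω
      obtain ⟨h1, h2⟩ := hbox _ ω hω
      obtain ⟨h3, h4⟩ := path_box hp h1 h2
      rw [pathLen_comp_equiv ω.1 e] at h3
      rw [poly_comp_equiv ω.1 e] at h4
      exact ⟨h3, h4⟩
    have hup : law A0 (MP42.cbar p) σ {ω | ((2 ^ p - 1 : ℕ) : ℕ∞) < shadowSize ω.1 (zz p) ω.2} ≤
        law A0 (MP42.cbar p) σ (boxSet A0 (MP42.cbar p) (rr p))ᶜ := by
      apply measure_mono
      intro ω hω hmem
      obtain ⟨h1, h2⟩ := hbox _ ω hmem
      have h3 := shadow_box hp h1 h2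
      rw [shadowSize_comp_equiv ω.1 e] at h3
      have h4 : ((2 ^ p - 1 : ℕ) : ℕ∞) < 3 := lt_of_lt_of_le hω h3
      have h5 : 2 ^ p - 1 < 3 := by exact_mod_cast h4
      have h6 : 2 ^ 8 ≤ 2 ^ p := Nat.pow_le_pow_right (by norm_num) hp
      omega
    refine lt_of_lt_of_le ?_ hlow
    refine lt_of_le_of_lt (mul_le_mul_right (hup.trans (law_box_compl_le _ _ _ hr0)) _) ?_
    refine lt_of_lt_of_le ?_ (law_box_ge _ _ hσ0 hτ0 hτσ)
    have hcmp := prob_compare hp hbig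
    set N : ℕ := (p + p + 3) * (p + 1) + (p + 1) with hN
    have hcast : ((σ ^ 2 : ℝ≥0) : ℝ) = (1 / ((p:ℝ) + 1) ^ 12) ^ 2 := by
      push_cast
      rw [hσr]
    rw [← ENNReal.ofReal_natCast N, ← ENNReal.ofReal_mul (Nat.cast_nonneg N), hcast]
    have hX : 0 ≤ (N:ℝ) * (2 * Real.exp (-rr p ^ 2 / (2 * (1 / ((p:ℝ) + 1) ^ 12) ^ 2))) := by
      positivity
    rw [mul_comm, ← ENNReal.ofReal_mul hX, mul_comm]
    have hHb : tau p / (3 * σ) = 1 / (2 ^ 20 * ((p:ℝ) + 1) ^ 5 * ((512 * p) ^ (p + 2)) ^ 20) /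
        (3 * (1 / ((p:ℝ) + 1) ^ 12)) := by
      rw [hσr, tau, Hb]
    rw [hHb]
    have hpos : 0 < (1 / (2 ^ 20 * ((p:ℝ) + 1) ^ 5 * ((512 * p) ^ (p + 2)) ^ 20) /
        (3 * (1 / ((p:ℝ) + 1) ^ 12))) ^ N := by positivity
    rw [ENNReal.ofReal_lt_ofReal_iff hpos]
    exact hcmp

end Pool.Agent.Results.MP_42ca66_lc.SteepestEdgeBeatsShadow
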